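import Pool.Agent.N355.MS.Cplx

/-!
Splitting a matroid polytope along the hyperplane `x_i + x_j = 1` for clones `i`, `j`.
-/

set_option autoImplicit false

namespace Pool.Agent.N355.MS

open Finset Pool.Agent.R138.Pg
open Pool.Agent.R567.MSub (vec polytope IsFace IsPolytopalComplex IsCell IsMatroidSubdivision)

variable {n r : ℕ}

/-- `i` and `j` are clones -/
def Clones (N : Finset (Fin n) → Prop) (i j : Fin n) : Prop :=
  ∀ A : Finset (Fin n), i ∉ A → j ∉ A → (N (insert i A) ↔ N (insert j A))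

theorem Clones.symm {N : Finset (Fin n) → Prop} {i j : Fin n} (h : Clones N i j) :
    Clones N j i := fun A h1 h2 => (h A h2 h1).symm

theorem bf_notboth_aux {N : Finset (Fin n) → Prop} (hN : BF r N) {i j : Fin n} (hij : i ≠ j)
    (hcl : Clones N i j) {A B : Finset (Fin n)} (hA : N A) (hB : N B)
    (hB2 : ¬ (i ∈ B ∧ j ∈ B)) (hA2 : ¬ (i ∈ A ∧ j ∈ A)) {e : Fin n} (he : e ∈ A) (heB : e ∉ B)
    (hiB : i ∈ B) (hiA : i ∉ A) (hjA : j ∈ A) (hje : j ≠ e) :
    ∃ f ∈ B, f ∉ A ∧ N (insert f (A.erase e)) ∧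
      ¬ (i ∈ insert f (A.erase e) ∧ j ∈ insert f (A.erase e)) := by
  have hjB : j ∉ B := fun h => hB2 ⟨hiB, h⟩
  have h1 : N (insert j (B.erase i)) := by
    rw [← hcl (B.erase i) (by simp) (by simp [hjB])]
    rwa [Finset.insert_erase hiB]
  obtain ⟨f, hf, hfA, hfN⟩ := hN.exch A _ hA h1 e he (by simp [hje.symm, heB])
  rw [Finset.mem_insert, Finset.mem_erase] at hf
  rcases hf with rfl | ⟨hfi, hfB⟩
  · exact absurd hjA hfA
  · refine ⟨f, hfB, hfA, hfN, ?_⟩
    rintro ⟨h2, -⟩
    simp [hfi.symm, hiA] at h2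

theorem bf_notboth {N : Finset (Fin n) → Prop} (hN : BF r N) {i j : Fin n} (hij : i ≠ j)
    (hcl : Clones N i j) (hne : ∃ B, N B ∧ ¬ (i ∈ B ∧ j ∈ B)) :
    BF r (fun B => N B ∧ ¬ (i ∈ B ∧ j ∈ B)) := by
  refine ⟨fun B hB => hN.card B hB.1, hne, ?_⟩
  rintro A B ⟨hA, hA2⟩ ⟨hB, hB2⟩ e he heB
  obtain ⟨f, hf, hfA, hfN⟩ := hN.exch A B hA hB e he heB
  by_cases hboth : i ∈ insert f (A.erase e) ∧ j ∈ insert f (A.erase e)
  · obtain ⟨h1, h2⟩ := hboth
    rw [Finset.mem_insert, Finset.mem_erase] at h1 h2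
    rcases h1 with rfl | ⟨h1, h1'⟩
    · rcases h2 with h2 | ⟨h2, h2'⟩
      · exact absurd h2.symm hij
      · exact bf_notboth_aux hN hij hcl hA hB hB2 hA2 he heB hf hfA h2' h2
    · rcases h2 with rfl | ⟨h2, h2'⟩
      · obtain ⟨g, q1, q2, q3, q4⟩ := bf_notboth_aux hN hij.symm hcl.symm hA hB
          (fun h => hB2 h.symm) (fun h => hA2 h.symm) he heB hf hfA h1' h1
        exact ⟨g, q1, q2, q3, fun h => q4 h.symm⟩
      · exact absurd ⟨h1', h2'⟩ hA2
  · exact ⟨f, hf, hfA, hfN, hboth⟩

theorem bf_some {N : Finset (Fin n) → Prop} (hN : BF r N) {i j : Fin n} (hij : i ≠ j)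
    (hcl : Clones N i j) (hne : ∃ B, N B ∧ (i ∈ B ∨ j ∈ B)) :
    BF r (fun B => N B ∧ (i ∈ B ∨ j ∈ B)) := by
  refine ⟨fun B hB => hN.card B hB.1, hne, ?_⟩
  rintro A B ⟨hA, hA2⟩ ⟨hB, hB2⟩ e he heB
  obtain ⟨f, hf, hfA, hfN⟩ := hN.exch A B hA hB e he heB
  by_cases hsome : i ∈ insert f (A.erase e) ∨ j ∈ insert f (A.erase e)
  · exact ⟨f, hf, hfA, hfN, hsome⟩
  · simp only [Finset.mem_insert, Finset.mem_erase, not_or, not_and_or, not_not] at hsome
    obtain ⟨⟨h1, h2⟩, h3, h4⟩ := hsome
    rcases hA2 with hiA | hjA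
    · have hie : i = e := by
        rcases h2 with h | h
        · exact h
        · exact absurd hiA h
      subst hie
      have hjA : j ∉ A := by
        rcases h4 with h | h
        · exact absurd h.symm hij
        · exact h
      have hjB : j ∈ B := by
        rcases hB2 with h | h
        · exact absurd h heB
        · exact h
      refine ⟨j, hjB, hjA, ?_, Or.inr (Finset.mem_insert_self _ _)⟩
      rw [← hcl (A.erase i) (by simp) (by simp [hjA]), Finset.insert_erase hiA]
      exact hA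
    · have hje : j = e := by
        rcases h4 with h | h
        · exact h
        · exact absurd hjA h
      subst hje
      have hiA : i ∉ A := by
        rcases h2 with h | h
        · exact absurd h hij
        · exact h
      have hiB : i ∈ B := by
        rcases hB2 with h | h
        · exact h
        · exact absurd h heB
      refine ⟨i, hiB, hiA, ?_, Or.inl (Finset.mem_insert_self _ _)⟩
      rw [hcl (A.erase j) (by simp [hiA]) (by simp), Finset.insert_erase hjA]
      exact hA

theorem card_inter_compl (B K : Finset (Fin n)) : (B ∩ Kᶜ).card + (B ∩ K).card = B.card := by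
  rw [← Finset.sdiff_eq_inter_compl, Finset.card_sdiff_add_card_inter]

theorem card_pair {i j : Fin n} (hij : i ≠ j) (B : Finset (Fin n)) :
    (B ∩ {i, j}).card = (if i ∈ B then 1 else 0) + (if j ∈ B then 1 else 0) := by
  by_cases h1 : i ∈ B
  · by_cases h2 : j ∈ B
    · have : B ∩ {i, j} = {i, j} := Finset.inter_eq_right.2 (by
        intro t ht
        simp only [Finset.mem_insert, Finset.mem_singleton] at ht
        rcases ht with rfl | rfl <;> assumption)
      rw [this, Finset.card_pair hij]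
      simp [h1, h2]
    · have : B ∩ {i, j} = {i} := by
        ext t
        simp only [Finset.mem_inter, Finset.mem_insert, Finset.mem_singleton]
        constructor
        · rintro ⟨a, rfl | rfl⟩
          · rfl
          · exact absurd a h2
        · rintro rfl
          exact ⟨h1, Or.inl rfl⟩
      rw [this]
      simp [h1, h2]
  · by_cases h2 : j ∈ B
    · have : B ∩ {i, j} = {j} := by
        ext t
        simp only [Finset.mem_inter, Finset.mem_insert, Finset.mem_singleton]
        constructor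
        · rintro ⟨a, rfl | rfl⟩
          · exact absurd a h1
          · rfl
        · rintro rfl
          exact ⟨h2, Or.inr rfl⟩
      rw [this]
      simp [h1, h2]
    · have : B ∩ {i, j} = ∅ := by
        ext t
        simp only [Finset.mem_inter, Finset.mem_insert, Finset.mem_singleton,
          Finset.notMem_empty, iff_false, not_and, not_or]
        intro a
        exact ⟨by rintro rfl; exact h1 a, by rintro rfl; exact h2 a⟩
      rw [this]
      simp [h1, h2]

/-- **Clone split.** If `i`, `j` are clones of `N` and both polytopes are full, then `P_N` has a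
nontrivial matroid subdivision. -/
theorem clone_split (N : Matroid (Fin n)) (hE : N.E = Set.univ)
    (hcard : ∀ B : Finset (Fin n), N.IsBase ↑B → B.card = r) {i j : Fin n} (hij : i ≠ j)
    (hcl : Clones (fun B : Finset (Fin n) => N.IsBase ↑B) i j)
    (h2 : ∃ B : Finset (Fin n), N.IsBase ↑B ∧ i ∈ B ∧ j ∈ B)
    (h0 : ∃ B : Finset (Fin n), N.IsBase ↑B ∧ i ∉ B ∧ j ∉ B)
    (hex : ∀ B0 B1 : Finset (Fin n), N.IsBase ↑B0 → N.IsBase ↑B1 → i ∈ B0 → j ∈ B0 → i ∉ B1 →
      j ∉ B1 → ∃ B0' B1' : Finset (Fin n), N.IsBase ↑B0' ∧ N.IsBase ↑B1' ∧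
        (∀ e, ind B0 e + ind B1 e = ind B0' e + ind B1' e) ∧ ¬ (i ∈ B0' ∧ j ∈ B0') ∧
        ¬ (i ∈ B1' ∧ j ∈ B1')) :
    ¬ Indecomposable N := by
  classical
  intro hind
  have hN := bf_of_isBase N hcard
  obtain ⟨B2, hB2, hiB2, hjB2⟩ := h2
  obtain ⟨B0, hB0, hiB0, hjB0⟩ := h0
  have hN1 := bf_notboth hN hij hcl ⟨B0, hB0, fun h => hiB0 h.1⟩
  have hN2 := bf_some hN hij hcl ⟨B2, hB2, Or.inl hiB2⟩
  have hr : 1 ≤ r := by
    rw [← hcard B2 hB2]
    exact Finset.card_pos.2 ⟨i, hiB2⟩
  have hS : IsMatroidSubdivision N (gen {ofBF hN1, ofBF hN2}) := by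
    apply gen_isMatroidSubdivision
    · rintro M (rfl | rfl)
      · exact ofBF_E hN1
      · exact ofBF_E hN2
    · rintro M (rfl | rfl) B hB
      · obtain ⟨C, rfl⟩ := (Set.toFinite B).exists_finset_coe
        exact ((ofBF_isBase hN1 C).1 hB).1
      · obtain ⟨C, rfl⟩ := (Set.toFinite B).exists_finset_coe
        exact ((ofBF_isBase hN2 C).1 hB).1
    · intro x hx
      rw [polytope_eq] at hx
      obtain ⟨w, w0, wN, w1, ww, wopt⟩ := exists_opt hx
        (fun B => if i ∈ B ∧ j ∈ B then (1 : ℝ) else 0)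
      simp only [Set.mem_iUnion, Set.mem_insert_iff, Set.mem_singleton_iff]
      by_cases hall : ∀ B, w B ≠ 0 → (i ∈ B ∨ j ∈ B)
      · refine ⟨ofBF hN2, Or.inr rfl, ?_⟩
        rw [ofBF_polytope, mem_fpoly]
        exact ⟨w, w0, fun B hB => ⟨wN B hB, hall B hB⟩, w1, ww⟩
      · push Not at hall
        obtain ⟨B1, hB1, hiB1, hjB1⟩ := hall
        refine ⟨ofBF hN1, Or.inl rfl, ?_⟩
        rw [ofBF_polytope, mem_fpoly]
        refine ⟨w, w0, fun B hB => ⟨wN B hB, ?_⟩, w1, ww⟩
        intro hBij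
        obtain ⟨B0', B1', c1, c2, c3, c4, c5⟩ := hex B B1 (wN B hB) (wN B1 hB1) hBij.1 hBij.2
          hiB1 hjB1
        have := wopt B B1 B0' B1' hB hB1 c1 c2 c3
        rw [if_pos hBij, if_neg c4, if_neg c5, if_neg (fun h => hiB1 h.1)] at this
        norm_num at this
    · have hc : ∀ B : Finset (Fin n), (B ∩ {i, j}).card ≤ 1 ↔ ¬ (i ∈ B ∧ j ∈ B) := by
        intro B
        rw [card_pair hij]
        split_ifs <;> simp_all
      have hc2 : ∀ B : Finset (Fin n), 1 ≤ (B ∩ {i, j}).card ↔ (i ∈ B ∨ j ∈ B) := by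
        intro B
        rw [card_pair hij]
        split_ifs <;> simp_all
      rintro M (rfl | rfl) M' (rfl | rfl)
      · rw [Set.inter_self]
        exact polytope_refl _
      · rw [ofBF_polytope, ofBF_polytope]
        apply isFace_inter {i, j} 1
        · intro B hB
          exact (hc B).2 hB.2
        · intro B hB
          exact (hc2 B).2 hB.2
        · intro B hB hB1
          exact ⟨hB.1, (hc2 B).1 hB1.ge⟩
      · rw [ofBF_polytope, ofBF_polytope]
        apply isFace_inter ({i, j} : Finset (Fin n))ᶜ (r - 1)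
        · intro B hB
          have q1 := card_inter_compl B {i, j}
          have q2 := (hc2 B).2 hB.2
          have q3 := hcard B hB.1
          omega
        · intro B hB
          have q1 := card_inter_compl B {i, j}
          have q2 := (hc B).2 hB.2
          have q3 := hcard B hB.1
          omega
        · intro B hB hB1
          have q1 := card_inter_compl B {i, j}
          have q3 := hcard B hB.1
          exact ⟨hB.1, (hc B).1 (by omega)⟩
      · rw [Set.inter_self]
        exact polytope_refl _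
  have htriv := hind _ hS
  have hmem : polytope N ∈ trivialSub N := polytope_refl N
  rw [← htriv] at hmem
  obtain ⟨M, hM, hF⟩ := hmem
  have hsub := hF.2.subset
  rcases hM with rfl | rfl
  · have := Pool.Agent.R567.MSub.isBase_of_subset hsub hB2
    exact ((ofBF_isBase hN1 B2).1 this).2 ⟨hiB2, hjB2⟩
  · have := Pool.Agent.R567.MSub.isBase_of_subset hsub hB0
    rcases ((ofBF_isBase hN2 B0).1 this).2 with h | h
    · exact hiB0 h
    · exact hjB0 h

end Pool.Agent.N355.MS
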