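import Pool.Agent.N355.MS.Fam

/-!
Complexes generated by families of matroid polytopes; refinements; existence of finest
matroid subdivisions.
-/

set_option autoImplicit false

namespace Pool.Agent.N355.MS

open Finset Pool.Agent.R138.Pg
open Pool.Agent.R567.MSub (vec polytope IsFace IsPolytopalComplex IsCell IsMatroidSubdivision)

variable {n : ℕ}

/-- the complex generated by a family of matroid polytopes: all their faces -/
def gen (𝒮 : Set (Matroid (Fin n))) : Set (Set (Fin n → ℝ)) :=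
  {F | ∃ N ∈ 𝒮, IsFace (polytope N) F}

/-- all polytopes of families of finite sets -/
def allPoly (n : ℕ) : Set (Set (Fin n → ℝ)) :=
  Set.range (fun N : Finset (Fin n) → Prop => fpoly N)

theorem finite_allPoly : (allPoly n).Finite := Set.finite_range _

theorem face_mem_allPoly {N : Matroid (Fin n)} {F : Set (Fin n → ℝ)}
    (hF : IsFace (polytope N) F) : F ∈ allPoly n := by
  rw [polytope_eq] at hF
  exact ⟨_, (face_eq hF).symm⟩

theorem polytope_refl (N : Matroid (Fin n)) : IsFace (polytope N) (polytope N) :=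
  isFace_refl (Pool.Agent.R567.MSub.convex_polytope N)

theorem gen_isMatroidSubdivision {M : Matroid (Fin n)} {𝒮 : Set (Matroid (Fin n))}
    (hE : ∀ N ∈ 𝒮, N.E = Set.univ) (hsub : ∀ N ∈ 𝒮, ∀ B, N.IsBase B → M.IsBase B)
    (hcover : polytope M ⊆ ⋃ N ∈ 𝒮, polytope N)
    (hinter : ∀ N ∈ 𝒮, ∀ N' ∈ 𝒮, IsFace (polytope N) (polytope N ∩ polytope N')) :
    IsMatroidSubdivision M (gen 𝒮) := by
  refine ⟨⟨?_, ?_, ?_, ?_⟩, ?_, ?_, ?_⟩
  · apply finite_allPoly.subset
    rintro F ⟨N, -, hF⟩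
    exact face_mem_allPoly hF
  · rintro F ⟨N, -, hF⟩
    rw [polytope_eq] at hF
    rw [face_eq hF]
    refine ⟨_, ?_, rfl⟩
    apply (Set.finite_range (fun B : Finset (Fin n) => (ind B : Fin n → ℝ))).subset
    rintro _ ⟨B, -, rfl⟩
    exact ⟨B, rfl⟩
  · rintro F ⟨N, hN, hF⟩ G hG
    exact ⟨N, hN, IsFace.trans hF hG⟩
  · -- intersections of faces
    have key : ∀ Q ∈ gen 𝒮, ∀ R ∈ gen 𝒮, IsFace Q (Q ∩ R) := by
      rintro Q ⟨N, hN, hQ⟩ R ⟨N', hN', hR⟩
      refine ⟨hQ.1.inter hR.1, ⟨Set.inter_subset_left, ?_⟩⟩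
      rintro x hx y hy z ⟨hzQ, hzR⟩ hz
      have hxN := hQ.2.subset hx
      have hyN := hQ.2.subset hy
      have hzI : z ∈ polytope N ∩ polytope N' := ⟨hQ.2.subset hzQ, hR.2.subset hzR⟩
      have hxI := (hinter N hN N' hN').2.left_mem_of_mem_openSegment hxN hyN hzI hz
      have hyI := (hinter N hN N' hN').2.right_mem_of_mem_openSegment hxN hyN hzI hz
      exact ⟨hx, hR.2.left_mem_of_mem_openSegment hxI.2 hyI.2 hzR hz⟩
    intro Q hQ R hR
    refine ⟨key Q hQ R hR, ?_⟩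
    rw [Set.inter_comm]
    exact key R hR Q hQ
  · apply Set.Subset.antisymm
    · rintro x ⟨F, ⟨N, hN, hF⟩, hx⟩
      exact Pool.Agent.R567.MSub.polytope_mono (hsub N hN) (hF.2.subset hx)
    · intro x hx
      have := hcover hx
      simp only [Set.mem_iUnion] at this
      obtain ⟨N, hN, hxN⟩ := this
      exact ⟨polytope N, ⟨N, hN, polytope_refl N⟩, hxN⟩
  · rintro v ⟨N, hN, hv⟩
    have hv' := hv
    rw [polytope_eq] at hv'
    have he := face_eq hv'
    have hvm : v ∈ ({v} : Set (Fin n → ℝ)) := rfl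
    rw [he] at hvm
    obtain ⟨w, h0, hw, h1, -⟩ := mem_fpoly.1 hvm
    obtain ⟨B, hB⟩ : ∃ B, w B ≠ 0 := by
      by_contra hcon
      push Not at hcon
      simp [hcon] at h1
    obtain ⟨hBN, hBv⟩ := hw B hB
    have hBv' : ind B = v := hBv
    have hM : vec (B : Set (Fin n)) ∈ polytope M :=
      Pool.Agent.R567.MSub.vec_mem_polytope (hsub N hN _ hBN)
    have hex := Pool.Agent.R567.MSub.vec_extreme
      (fun x hx i => Pool.Agent.R567.MSub.mem_cube hx i) hM
    rw [vec_coe, hBv'] at hex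
    exact ⟨convex_singleton v, isExtreme_singleton.2 hex⟩
  · rintro Q ⟨⟨N, hN, hF⟩, hmax⟩
    have := hmax (polytope N) ⟨N, hN, polytope_refl N⟩ hF.2.subset
    exact ⟨N, hE N hN, this.symm⟩

/-- `C'` refines `C`: every member of `C'` is contained in a member of `C`. -/
def Refines (C' C : Set (Set (Fin n → ℝ))) : Prop := ∀ Q' ∈ C', ∃ Q ∈ C, Q' ⊆ Q

/-- `C` is a finest matroid subdivision of `P_M`: no matroid subdivision of `P_M` refines it
properly. -/
def IsFinest (M : Matroid (Fin n)) (C : Set (Set (Fin n → ℝ))) : Prop :=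
  IsMatroidSubdivision M C ∧ ∀ C', IsMatroidSubdivision M C' → Refines C' C → C' = C

theorem Refines.refl (C : Set (Set (Fin n → ℝ))) : Refines C C := fun Q hQ => ⟨Q, hQ, subset_rfl⟩

theorem Refines.trans {C1 C2 C3 : Set (Set (Fin n → ℝ))} (h1 : Refines C1 C2)
    (h2 : Refines C2 C3) : Refines C1 C3 := by
  intro Q hQ
  obtain ⟨R, hR, hQR⟩ := h1 Q hQ
  obtain ⟨T, hT, hRT⟩ := h2 R hR
  exact ⟨T, hT, hQR.trans hRT⟩

theorem isFace_of_subset {C : Set (Set (Fin n → ℝ))} (hC : IsPolytopalComplex C)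
    {Q R : Set (Fin n → ℝ)} (hQ : Q ∈ C) (hR : R ∈ C) (h : Q ⊆ R) : IsFace R Q := by
  have := (hC.inter Q hQ R hR).2
  rwa [Set.inter_eq_left.2 h] at this

theorem subset_of_refines {C C' : Set (Set (Fin n → ℝ))} (hC : IsPolytopalComplex C)
    (hC' : IsPolytopalComplex C') (h1 : Refines C C') (h2 : Refines C' C) : C ⊆ C' := by
  intro Q hQ
  obtain ⟨R, hR, hQR⟩ := Pool.Agent.R567.MSub.exists_cell_of_mem hC hQ
  obtain ⟨Q', hQ', hRQ'⟩ := h1 R hR.1
  obtain ⟨Q'', hQ'', hQ'Q''⟩ := h2 Q' hQ'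
  have : Q'' = R := hR.2 Q'' hQ'' (hRQ'.trans hQ'Q'')
  have hRe : R = Q' := Set.Subset.antisymm hRQ' (this ▸ hQ'Q'')
  apply hC'.face Q' hQ'
  rw [← hRe]
  exact isFace_of_subset hC hQ hR.1 hQR

theorem mem_allPoly {M : Matroid (Fin n)} {C : Set (Set (Fin n → ℝ))}
    (hC : IsMatroidSubdivision M C) : C ⊆ allPoly n := by
  intro Q hQ
  obtain ⟨R, hR, hQR⟩ := Pool.Agent.R567.MSub.exists_cell_of_mem hC.isComplex hQ
  obtain ⟨N, -, rfl⟩ := hC.cells R hR
  exact face_mem_allPoly (isFace_of_subset hC.isComplex hQ hR.1 hQR)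

/-- the matroid subdivisions of `P_M` -/
structure SubDiv (M : Matroid (Fin n)) where
  C : Set (Set (Fin n → ℝ))
  h : IsMatroidSubdivision M C

instance (M : Matroid (Fin n)) : PartialOrder (SubDiv M) where
  le a b := Refines a.C b.C
  le_refl a := Refines.refl a.C
  le_trans _ _ _ h1 h2 := Refines.trans h1 h2
  le_antisymm := by
    rintro ⟨C, hC⟩ ⟨C', hC'⟩ h1 h2
    have : C = C' := Set.Subset.antisymm (subset_of_refines hC.isComplex hC'.isComplex h1 h2)
      (subset_of_refines hC'.isComplex hC.isComplex h2 h1)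
    subst this
    rfl

instance (M : Matroid (Fin n)) : Finite (SubDiv M) := by
  have h1 : Finite {C : Set (Set (Fin n → ℝ)) // C ⊆ allPoly n} :=
    (finite_allPoly (n := n)).finite_subsets
  refine Finite.of_injective (fun a : SubDiv M =>
    (⟨a.C, mem_allPoly a.h⟩ : {C : Set (Set (Fin n → ℝ)) // C ⊆ allPoly n})) ?_
  rintro ⟨C, hC⟩ ⟨C', hC'⟩ h
  have : C = C' := congrArg Subtype.val h
  subst this
  rfl

theorem exists_finest {M : Matroid (Fin n)} {C0 : Set (Set (Fin n → ℝ))}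
    (h0 : IsMatroidSubdivision M C0) : ∃ C, IsFinest M C ∧ Refines C C0 := by
  obtain ⟨⟨C, hC⟩, hle, hmin⟩ := (Set.toFinite (Set.univ : Set (SubDiv M))).exists_le_minimal
    (Set.mem_univ (⟨C0, h0⟩ : SubDiv M))
  refine ⟨C, ⟨hC, ?_⟩, hle⟩
  intro C' hC' href
  have h1 : (⟨C', hC'⟩ : SubDiv M) ≤ ⟨C, hC⟩ := href
  have h2 := hmin.2 (Set.mem_univ (⟨C', hC'⟩ : SubDiv M)) h1
  have h3 : (⟨C', hC'⟩ : SubDiv M) = ⟨C, hC⟩ := le_antisymm h1 h2
  exact congrArg SubDiv.C h3

/-- the trivial subdivision of `P_M`: the polytope and its faces -/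
def trivialSub (M : Matroid (Fin n)) : Set (Set (Fin n → ℝ)) := {F | IsFace (polytope M) F}

/-- `M` is indecomposable: the only matroid subdivision of `P_M` is the trivial one. -/
def Indecomposable (M : Matroid (Fin n)) : Prop :=
  ∀ C, IsMatroidSubdivision M C → C = trivialSub M

/-- the matroid on `{0, ..., n - 1}` with a given family of bases -/
noncomputable def ofBF {r : ℕ} {N : Finset (Fin n) → Prop} (h : BF r N) : Matroid (Fin n) :=
  Matroid.ofIsBaseOfFinite (E := Set.univ) Set.finite_univ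
    (fun B => ∃ C : Finset (Fin n), N C ∧ B = ↑C)
    (by obtain ⟨B, hB⟩ := h.ne; exact ⟨B, B, hB, rfl⟩)
    (by
      rintro _ _ ⟨A, hA, rfl⟩ ⟨B, hB, rfl⟩ e he
      obtain ⟨f, hf, hfA, hN⟩ := h.exch A B hA hB e (by exact_mod_cast he.1)
        (by exact_mod_cast he.2)
      refine ⟨f, ⟨by exact_mod_cast hf, by exact_mod_cast hfA⟩, _, hN, ?_⟩
      push_cast
      rfl)
    (fun _ _ => Set.subset_univ _)

theorem ofBF_E {r : ℕ} {N : Finset (Fin n) → Prop} (h : BF r N) : (ofBF h).E = Set.univ := rfl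

theorem ofBF_isBase {r : ℕ} {N : Finset (Fin n) → Prop} (h : BF r N) (B : Finset (Fin n)) :
    (ofBF h).IsBase ↑B ↔ N B := by
  constructor
  · rintro ⟨C, hC, h⟩
    have : B = C := by exact_mod_cast h
    rw [this]; exact hC
  · intro hB
    exact ⟨B, hB, rfl⟩

theorem ofBF_polytope {r : ℕ} {N : Finset (Fin n) → Prop} (h : BF r N) :
    polytope (ofBF h) = fpoly N := by
  rw [polytope_eq]
  congr 1
  funext B
  exact propext (ofBF_isBase h B)

theorem bf_of_isBase (N : Matroid (Fin n)) {r : ℕ}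
    (hcard : ∀ B : Finset (Fin n), N.IsBase ↑B → B.card = r) :
    BF r (fun B : Finset (Fin n) => N.IsBase ↑B) := by
  refine ⟨hcard, ?_, ?_⟩
  · obtain ⟨B, hB⟩ := N.exists_isBase
    obtain ⟨C, rfl⟩ := (Set.toFinite B).exists_finset_coe
    exact ⟨C, hB⟩
  · intro A B hA hB e he heB
    obtain ⟨y, hy, hy2⟩ := hA.exchange hB (e := e) ⟨by exact_mod_cast he, by exact_mod_cast heB⟩
    refine ⟨y, by exact_mod_cast hy.1, by exact_mod_cast hy.2, ?_⟩
    convert hy2 using 1
    push_cast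
    rfl

end Pool.Agent.N355.MS
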