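import Pool.Agent.N355.MS.Main

/-!
The cell on the other side of the facet of a line is decomposable.
-/

set_option autoImplicit false

namespace Pool.Agent.N355.MS

open Finset Pool.Agent.R138.Pg
open Pool.Agent.R567.MSub (vec polytope IsFace IsPolytopalComplex IsCell IsMatroidSubdivision)

/-- at most one triple of the line is missing -/
theorem exists_t {N : Matroid (Fin 13)} (hsub : ∀ B : Finset (Fin 13), N.IsBase ↑B → RB 0 B)
    (h2 : ∀ B : Finset (Fin 13), B.card = 3 → (B ∩ ell 0).card = 2 → N.IsBase ↑B)
    (h3 : ∃ B : Finset (Fin 13), N.IsBase ↑B ∧ B ⊆ ell 0) :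
    ∃ t ∈ ell 0, ∀ u ∈ ell 0, u ≠ t → N.IsBase ↑((ell 0).erase u) := by
  have hN := bf_of_isBase N (fun B hB => (hsub B hB).1)
  -- two different triples cannot both be missing
  have key : ∀ u ∈ ell 0, ∀ v ∈ ell 0, u ≠ v → N.IsBase ↑((ell 0).erase u) ∨
      N.IsBase ↑((ell 0).erase v) := by
    intro u hu v hv huv
    obtain ⟨B, hB, hBl⟩ := h3
    set A : Finset (Fin 13) := insert 2 (((ell 0).erase u).erase v) with hA
    have h2l : (2 : Fin 13) ∉ ell 0 := by decide
    have hc1 := card_erase_add_one hu
    have hc2 := card_erase_add_one (s := (ell 0).erase u) (a := v)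
      (mem_erase.2 ⟨huv.symm, hv⟩)
    have hl := ell_card 0
    have h2n : (2 : Fin 13) ∉ ((ell 0).erase u).erase v := fun h =>
      h2l (mem_of_mem_erase (mem_of_mem_erase h))
    have hAc : A.card = 3 := by
      rw [hA, card_insert_of_notMem h2n]
      omega
    have hAl : A ∩ ell 0 = ((ell 0).erase u).erase v := by
      rw [hA, insert_inter_of_notMem h2l, inter_eq_left]
      exact fun t ht => mem_of_mem_erase (mem_of_mem_erase ht)
    have hAN : N.IsBase ↑A := h2 A hAc (by rw [hAl]; omega)
    obtain ⟨f, hf, hfA, hfN⟩ := hN.exch A B hAN hB 2 (mem_insert_self _ _)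
      (fun h => h2l (hBl h))
    have hfl := hBl hf
    have hAe : A.erase 2 = ((ell 0).erase u).erase v := by
      rw [hA, erase_insert h2n]
    rw [hAe] at hfN
    have hfuv : f = u ∨ f = v := by
      by_contra hcon
      push Not at hcon
      apply hfA
      rw [hA]
      exact mem_insert_of_mem (mem_erase.2 ⟨hcon.2, mem_erase.2 ⟨hcon.1, hfl⟩⟩)
    rcases hfuv with rfl | rfl
    · right
      convert hfN using 2
      rw [erase_right_comm, insert_erase]
      exact mem_erase.2 ⟨huv, hu⟩
    · left
      convert hfN using 2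
      rw [insert_erase]
      exact mem_erase.2 ⟨huv.symm, hv⟩
  by_cases hall : ∀ u ∈ ell 0, N.IsBase ↑((ell 0).erase u)
  · exact ⟨0, by decide, fun u hu _ => hall u hu⟩
  · push Not at hall
    obtain ⟨t, ht, htN⟩ := hall
    refine ⟨t, ht, fun u hu hut => ?_⟩
    rcases key u hu t ht hut with h | h
    · exact h
    · exact absurd h htN

theorem decomposable {N : Matroid (Fin 13)} (hE : N.E = Set.univ)
    (hsub : ∀ B : Finset (Fin 13), N.IsBase ↑B → RB 0 B)
    (h2 : ∀ B : Finset (Fin 13), B.card = 3 → (B ∩ ell 0).card = 2 → N.IsBase ↑B)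
    (h3 : ∃ B : Finset (Fin 13), N.IsBase ↑B ∧ B ⊆ ell 0) : ¬ Indecomposable N := by
  obtain ⟨t, ht, hall⟩ := exists_t hsub h2 h3
  have hl := ell_card 0
  have hdec : ∀ t ∈ ell 0, ∃ i j s : Fin 13, i ≠ s ∧ j ≠ s ∧ i ≠ j ∧ t ≠ s ∧ s ∈ ell 0 ∧
      i ∈ ell 0 ∧ j ∈ ell 0 ∧ t ≠ i ∧ t ≠ j := by decide
  obtain ⟨i, j, s, his, hjs, hij, hts, hsl, hil, hjl, hti, htj⟩ := hdec t ht
  -- description of the bases
  have hbase : ∀ B : Finset (Fin 13), B.card = 3 → 2 ≤ (B ∩ ell 0).card →
      B ≠ (ell 0).erase t → N.IsBase ↑B := by
    intro B hB hB2 hne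
    have hle : (B ∩ ell 0).card ≤ 3 := by rw [← hB]; exact card_le_card inter_subset_left
    rcases Nat.lt_or_ge (B ∩ ell 0).card 3 with h | h
    · exact h2 B hB (by omega)
    · have hBl : B ⊆ ell 0 := by
        have : B ∩ ell 0 = B := eq_of_subset_of_card_le inter_subset_left (by omega)
        rw [← this]
        exact inter_subset_right
      obtain ⟨u, hu, huB⟩ := exists_mem_notMem_of_card_lt_card (s := B) (t := ell 0) (by omega)
      have hBu : B = (ell 0).erase u := by
        apply eq_of_subset_of_card_le
        · intro x hx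
          refine mem_erase.2 ⟨?_, hBl hx⟩
          rintro rfl
          exact huB hx
        · have := card_erase_add_one hu
          omega
      rw [hBu]
      apply hall u hu
      rintro rfl
      exact hne hBu
  have hiS : i ∈ (ell 0).erase t := mem_erase.2 ⟨hti.symm, hil⟩
  have hjS : j ∈ (ell 0).erase t := mem_erase.2 ⟨htj.symm, hjl⟩
  have h2l : (2 : Fin 13) ∉ ell 0 := by decide
  have hlist : ∀ x ∈ ell 0, x = i ∨ x = j ∨ x = s ∨ x = t := by
    intro x hx
    by_contra hcon
    push Not at hcon
    obtain ⟨a1, a2, a3, a4⟩ := hcon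
    have hsub' : ({x, i, j, s, t} : Finset (Fin 13)) ⊆ ell 0 := by
      intro y hy
      simp only [mem_insert, mem_singleton] at hy
      rcases hy with rfl | rfl | rfl | rfl | rfl <;> assumption
    have := card_le_card hsub'
    rw [card_insert_of_notMem (by simp [a1, a2, a3, a4]),
      card_insert_of_notMem (by simp [hij, his, hti.symm]),
      card_insert_of_notMem (by simp [hjs, htj.symm]),
      card_insert_of_notMem (by simp [hts.symm]), card_singleton, hl] at this
    omega
  refine clone_split N hE (fun B hB => (hsub B hB).1) hij ?_ ?_ ?_ ?_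
  · -- clones
    have aux : ∀ a b : Fin 13, a ≠ b → a ∈ ell 0 → b ∈ ell 0 → b ∈ (ell 0).erase t →
        a ∈ (ell 0).erase t → ∀ A : Finset (Fin 13), a ∉ A → b ∉ A →
        N.IsBase ↑(insert a A) → N.IsBase ↑(insert b A) := by
      intro a b hab ha hb hbS haS A haA hbA h
      have hR := hsub _ h
      apply hbase
      · have := hR.1
        rw [card_insert_of_notMem haA] at this
        rw [card_insert_of_notMem hbA]
        exact this
      · have := hR.2
        rw [insert_inter_of_mem ha, card_insert_of_notMem (by simp [haA])] at this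
        rw [insert_inter_of_mem hb, card_insert_of_notMem (by simp [hbA])]
        exact this
      · intro h'
        rw [← h', mem_insert] at haS
        rcases haS with h'' | h''
        · exact hab h''
        · exact haA h''
    intro A hiA hjA
    exact ⟨aux i j hij hil hjl hjS hiS A hiA hjA,
      aux j i hij.symm hjl hil hiS hjS A hjA hiA⟩
  · refine ⟨{i, j, 2}, ?_, by simp, by simp⟩
    have n1 : i ≠ 2 := by rintro rfl; exact h2l hil
    have n2 : j ≠ 2 := by rintro rfl; exact h2l hjl
    apply h2
    · rw [card_insert_of_notMem (by simp [hij, n1]), card_insert_of_notMem (by simp [n2]),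
        card_singleton]
    · have : ({i, j, 2} : Finset (Fin 13)) ∩ ell 0 = {i, j} := by
        rw [insert_inter_of_mem hil, insert_inter_of_mem hjl, singleton_inter_of_notMem h2l]
        rfl
      rw [this, Finset.card_pair hij]
  · refine ⟨{s, t, 2}, ?_, ?_, ?_⟩
    · have n1 : s ≠ 2 := by rintro rfl; exact h2l hsl
      have n2 : t ≠ 2 := by rintro rfl; exact h2l ht
      apply h2
      · rw [card_insert_of_notMem (by simp [hts.symm, n1]), card_insert_of_notMem (by simp [n2]),
          card_singleton]
      · have : ({s, t, 2} : Finset (Fin 13)) ∩ ell 0 = {s, t} := by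
          rw [insert_inter_of_mem hsl, insert_inter_of_mem ht, singleton_inter_of_notMem h2l]
          rfl
        rw [this, Finset.card_pair hts.symm]
    · have n1 : i ≠ 2 := by rintro rfl; exact h2l hil
      simp [his, hti.symm, n1]
    · have n2 : j ≠ 2 := by rintro rfl; exact h2l hjl
      simp [hjs, htj.symm, n2]
  · intro B0 B1 hB0 hB1 hi0 hj0 hi1 hj1
    obtain ⟨c0, d0⟩ := hsub B0 hB0
    obtain ⟨c1, d1⟩ := hsub B1 hB1
    -- `B1 ∩ ell 0 = {s, t}`
    have hB1l : B1 ∩ ell 0 = {s, t} := by
      apply eq_of_subset_of_card_le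
      · intro x hx
        rw [mem_inter] at hx
        rcases hlist x hx.2 with rfl | rfl | rfl | rfl
        · exact absurd hx.1 hi1
        · exact absurd hx.1 hj1
        · simp
        · simp
      · rw [Finset.card_pair hts.symm]
        exact d1
    have hs1 : s ∈ B1 := by
      have : s ∈ B1 ∩ ell 0 := by rw [hB1l]; simp
      exact (mem_inter.1 this).1
    have ht1 : t ∈ B1 := by
      have : t ∈ B1 ∩ ell 0 := by rw [hB1l]; simp
      exact (mem_inter.1 this).1
    obtain ⟨w, hw1, hwl⟩ : ∃ w ∈ B1, w ∉ ell 0 := by
      by_contra hcon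
      push Not at hcon
      have : B1 ∩ ell 0 = B1 := inter_eq_left.2 hcon
      rw [hB1l] at this
      rw [← this, Finset.card_pair hts.symm] at c1
      omega
    have hwi : w ≠ i := by rintro rfl; exact hwl hil
    have hwj : w ≠ j := by rintro rfl; exact hwl hjl
    have hws : w ≠ s := by rintro rfl; exact hwl hsl
    have hle : (B0 ∩ ell 0).card ≤ 3 := by rw [← c0]; exact card_le_card inter_subset_left
    rcases Nat.lt_or_ge (B0 ∩ ell 0).card 3 with h | h
    · -- one element of `B0` is off the line: exchange `i` and `s`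
      have hB0l : B0 ∩ ell 0 = {i, j} := by
        symm
        apply eq_of_subset_of_card_le
        · intro x hx
          simp only [mem_insert, mem_singleton] at hx
          rcases hx with rfl | rfl
          · exact mem_inter.2 ⟨hi0, hil⟩
          · exact mem_inter.2 ⟨hj0, hjl⟩
        · rw [Finset.card_pair hij]
          omega
      have hs0 : s ∉ B0 := by
        intro hs
        have : s ∈ B0 ∩ ell 0 := mem_inter.2 ⟨hs, hsl⟩
        rw [hB0l] at this
        simp [his.symm, hjs.symm] at this
      refine ⟨insert s (B0.erase i), insert i (B1.erase s), ?_, ?_,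
        ind_swap hi0 hi1 hs1 hs0, ?_, ?_⟩
      · have e := card_swap_inter hi0 hs0 (ell 0)
        rw [if_pos hil, if_pos hsl] at e
        exact h2 _ (by rw [card_swap hi0 hs0]; exact c0) (by omega)
      · have e := card_swap_inter hs1 hi1 (ell 0)
        rw [if_pos hil, if_pos hsl, hB1l, Finset.card_pair hts.symm] at e
        exact h2 _ (by rw [card_swap hs1 hi1]; exact c1) (by omega)
      · simp [his]
      · simp [hij.symm, hj1]
    · -- `B0` is contained in the line: exchange `i` and `w`
      have hB0l : B0 ⊆ ell 0 := by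
        have : B0 ∩ ell 0 = B0 := eq_of_subset_of_card_le inter_subset_left (by omega)
        rw [← this]
        exact inter_subset_right
      have hw0 : w ∉ B0 := fun h' => hwl (hB0l h')
      refine ⟨insert w (B0.erase i), insert i (B1.erase w), ?_, ?_,
        ind_swap hi0 hi1 hw1 hw0, ?_, ?_⟩
      · have e := card_swap_inter hi0 hw0 (ell 0)
        rw [if_pos hil, if_neg hwl] at e
        exact h2 _ (by rw [card_swap hi0 hw0]; exact c0) (by omega)
      · apply hbase
        · rw [card_swap hw1 hi1]; exact c1
        · have e := card_swap_inter hw1 hi1 (ell 0)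
          rw [if_pos hil, if_neg hwl, hB1l, Finset.card_pair hts.symm] at e
          omega
        · intro h'
          rw [← h', mem_insert, mem_erase] at hjS
          rcases hjS with h'' | h''
          · exact hij h''.symm
          · exact hj1 h''.2
      · simp [hwi.symm]
      · simp [hij.symm, hj1]

end Pool.Agent.N355.MS
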