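import Pool.Agent.R138.PgGeneric
import Pool.Agent.R567.MSub.Basic

/-!
Families of finite sets, their polytopes and faces.
-/

set_option autoImplicit false

namespace Pool.Agent.N355.MS

open Finset Pool.Agent.R138.Pg
open Pool.Agent.R567.MSub (vec polytope IsFace IsPolytopalComplex IsCell IsMatroidSubdivision)

variable {n : ℕ}

theorem vec_coe (B : Finset (Fin n)) : vec (B : Set (Fin n)) = ind B := by
  funext e
  unfold vec ind
  by_cases h : e ∈ B <;> simp [h]

theorem polytope_eq (M : Matroid (Fin n)) :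
    polytope M = fpoly (fun B : Finset (Fin n) => M.IsBase ↑B) := by
  unfold polytope fpoly
  congr 1
  ext x
  constructor
  · rintro ⟨B, hB, rfl⟩
    obtain ⟨C, rfl⟩ := (Set.toFinite B).exists_finset_coe
    exact ⟨C, hB, vec_coe C⟩
  · rintro ⟨B, hB, rfl⟩
    exact ⟨(B : Set (Fin n)), hB, (vec_coe B).symm⟩

/-- the weights of a point of a polytope with a vertex split off -/
theorem ind_mem_of_weight {N : Finset (Fin n) → Prop} {F : Set (Fin n → ℝ)}
    (hF : IsFace (fpoly N) F) {x : Fin n → ℝ} (hx : x ∈ F) {w : Finset (Fin n) → ℝ}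
    (h0 : ∀ B, 0 ≤ w B) (hN : ∀ B, w B ≠ 0 → N B) (h1 : ∑ B, w B = 1)
    (hw : ∀ e, ∑ B, w B * ind B e = x e) {B : Finset (Fin n)} (hB : w B ≠ 0) : ind B ∈ F := by
  have hpos : 0 < w B := lt_of_le_of_ne (h0 B) (Ne.symm hB)
  have hsplit : ∀ g : Finset (Fin n) → ℝ, ∑ C, g C = g B + ∑ C ∈ univ.erase B, g C := fun g =>
    (Finset.add_sum_erase _ _ (mem_univ B)).symm
  have hle : w B ≤ 1 := by
    rw [← h1]
    exact Finset.single_le_sum (fun C _ => h0 C) (mem_univ B)
  rcases eq_or_lt_of_le hle with h | h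
  · have hz : ∑ C ∈ univ.erase B, w C = 0 := by
      have := hsplit w
      linarith
    have hz2 : ∀ C ∈ univ.erase B, w C = 0 :=
      (Finset.sum_eq_zero_iff_of_nonneg (fun C _ => h0 C)).1 hz
    have : x = ind B := by
      funext e
      rw [← hw e, hsplit, h, Finset.sum_eq_zero (fun C hC => by rw [hz2 C hC, zero_mul])]
      ring
    rwa [← this]
  · have hne : 1 - w B ≠ 0 := by linarith
    have hp : 0 < 1 - w B := by linarith
    have hy : (fun e => ∑ C ∈ univ.erase B, (w C / (1 - w B)) * ind C e) ∈ fpoly N := by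
      rw [mem_fpoly]
      refine ⟨fun C => if C = B then 0 else w C / (1 - w B), ?_, ?_, ?_, ?_⟩
      · intro C
        beta_reduce
        split_ifs
        · exact le_rfl
        · exact div_nonneg (h0 C) hp.le
      · intro C hC
        by_cases hCB : C = B
        · simp [hCB] at hC
        · apply hN
          intro h
          simp [hCB, h] at hC
      · rw [hsplit]
        simp only [if_true, zero_add]
        rw [Finset.sum_congr rfl (g := fun C => w C / (1 - w B)) (fun C hC => by
          rw [if_neg (Finset.ne_of_mem_erase hC)]), ← Finset.sum_div]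
        rw [div_eq_one_iff_eq hne]
        have := hsplit w
        linarith
      · intro e
        rw [hsplit]
        simp only [if_true, zero_mul, zero_add]
        exact Finset.sum_congr rfl (fun C hC => by rw [if_neg (Finset.ne_of_mem_erase hC)])
    refine hF.2.left_mem_of_mem_openSegment (ind_mem (hN B hB)) hy hx ⟨w B, 1 - w B, hpos, hp,
      by ring, ?_⟩
    funext e
    simp only [Pi.add_apply, Pi.smul_apply, smul_eq_mul]
    rw [← hw e, hsplit, Finset.mul_sum]
    congr 1
    apply Finset.sum_congr rfl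
    intro C _
    field_simp

/-- a face of the polytope of a family is the polytope of a subfamily -/
theorem face_eq {N : Finset (Fin n) → Prop} {F : Set (Fin n → ℝ)} (hF : IsFace (fpoly N) F) :
    F = fpoly (fun B => N B ∧ ind B ∈ F) := by
  apply Set.Subset.antisymm
  · intro x hx
    obtain ⟨w, h0, hN, h1, hw⟩ := mem_fpoly.1 (hF.2.subset hx)
    exact mem_fpoly.2 ⟨w, h0, fun B hB => ⟨hN B hB, ind_mem_of_weight hF hx h0 hN h1 hw hB⟩,
      h1, hw⟩
  · apply convexHull_min _ hF.1
    rintro _ ⟨B, hB, rfl⟩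
    exact hB.2

theorem isFace_refl {P : Set (Fin n → ℝ)} (hP : Convex ℝ P) : IsFace P P :=
  ⟨hP, IsExtreme.refl ℝ P⟩

theorem IsFace.trans {P F G : Set (Fin n → ℝ)} (h1 : IsFace P F) (h2 : IsFace F G) : IsFace P G :=
  ⟨h2.1, h1.2.trans h2.2⟩

/-- two polytopes separated by an inequality, with the right vertices on the wall -/
theorem isFace_inter {N1 N2 : Finset (Fin n) → Prop} (K : Finset (Fin n)) (k : ℕ)
    (h1 : ∀ B, N1 B → (B ∩ K).card ≤ k) (h2 : ∀ B, N2 B → k ≤ (B ∩ K).card)
    (h3 : ∀ B, N1 B → (B ∩ K).card = k → N2 B) : IsFace (fpoly N1) (fpoly N1 ∩ fpoly N2) := by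
  have hle : ∀ x ∈ fpoly N1, ∑ e ∈ K, x e ≤ k := by
    intro x hx
    obtain ⟨w, h0, hN, hs, hw⟩ := mem_fpoly.1 hx
    rw [sum_weights hw]
    calc ∑ B, w B * ((B ∩ K).card : ℝ) ≤ ∑ B, w B * (k : ℝ) := by
          apply Finset.sum_le_sum
          intro B _
          by_cases hB : w B = 0
          · simp [hB]
          · exact mul_le_mul_of_nonneg_left (by exact_mod_cast h1 B (hN B hB)) (h0 B)
      _ = k := by rw [← Finset.sum_mul, hs, one_mul]
  have hge : ∀ x ∈ fpoly N2, (k : ℝ) ≤ ∑ e ∈ K, x e := by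
    intro x hx
    obtain ⟨w, h0, hN, hs, hw⟩ := mem_fpoly.1 hx
    rw [sum_weights hw]
    calc (k : ℝ) = ∑ B, w B * (k : ℝ) := by rw [← Finset.sum_mul, hs, one_mul]
      _ ≤ ∑ B, w B * ((B ∩ K).card : ℝ) := by
          apply Finset.sum_le_sum
          intro B _
          by_cases hB : w B = 0
          · simp [hB]
          · exact mul_le_mul_of_nonneg_left (by exact_mod_cast h2 B (hN B hB)) (h0 B)
  refine ⟨(convex_convexHull ℝ _).inter (convex_convexHull ℝ _), ⟨Set.inter_subset_left, ?_⟩⟩
  rintro x hx y hy z ⟨hz1, hz2⟩ hzo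
  refine ⟨hx, ?_⟩
  obtain ⟨a, b, ha, hb, hab, hz⟩ := hzo
  have e1 := hle x hx
  have e2 := hle y hy
  have e3 := hge z hz2
  have e4 : ∑ e ∈ K, z e = a * ∑ e ∈ K, x e + b * ∑ e ∈ K, y e := by
    rw [← hz, Finset.mul_sum, Finset.mul_sum, ← Finset.sum_add_distrib]
    rfl
  have e5 : ∑ e ∈ K, x e = k := by
    apply le_antisymm e1
    by_contra hcon
    push Not at hcon
    have := mul_lt_mul_of_pos_left hcon ha
    have := mul_le_mul_of_nonneg_left e2 hb.le
    have hk : a * (k : ℝ) + b * k = k := by rw [← add_mul, hab, one_mul]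
    linarith
  obtain ⟨w, h0, hN, hs, hw⟩ := mem_fpoly.1 hx
  have := card_eq_of_max h0 hs hw K k (fun B hB => h1 B (hN B hB)) e5
  exact mem_fpoly.2 ⟨w, h0, fun B hB => h3 B (hN B hB) (this B hB), hs, hw⟩

/-- a representation that cannot be improved by a local move -/
theorem exists_opt {N : Finset (Fin n) → Prop} {x : Fin n → ℝ} (hx : x ∈ fpoly N)
    (φ : Finset (Fin n) → ℝ) : ∃ w : Finset (Fin n) → ℝ, (∀ B, 0 ≤ w B) ∧ (∀ B, w B ≠ 0 → N B) ∧
      ∑ B, w B = 1 ∧ (∀ e, ∑ B, w B * ind B e = x e) ∧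
      ∀ B0 B1 B0' B1', w B0 ≠ 0 → w B1 ≠ 0 → N B0' → N B1' →
        (∀ e, ind B0 e + ind B1 e = ind B0' e + ind B1' e) →
        φ B0 + φ B1 ≤ φ B0' + φ B1' := by
  classical
  set W : Set (Finset (Fin n) → ℝ) := {w | (∀ B, 0 ≤ w B) ∧ (∀ B, ¬ N B → w B = 0) ∧
      ∑ B, w B = 1 ∧ ∀ e, ∑ B, w B * ind B e = x e} with hW
  have hclosed : IsClosed W := by
    rw [hW]
    have c1 : IsClosed {w : Finset (Fin n) → ℝ | ∀ B, 0 ≤ w B} := by
      simp only [Set.ofPred_forall]
      exact isClosed_iInter fun B => isClosed_le continuous_const (continuous_apply B)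
    have c2 : IsClosed {w : Finset (Fin n) → ℝ | ∀ B, ¬ N B → w B = 0} := by
      simp only [Set.ofPred_forall]
      exact isClosed_iInter fun B => isClosed_iInter fun _ =>
        isClosed_eq (continuous_apply B) continuous_const
    have c3 : IsClosed {w : Finset (Fin n) → ℝ | ∑ B, w B = 1} :=
      isClosed_eq (by fun_prop) continuous_const
    have c4 : IsClosed {w : Finset (Fin n) → ℝ | ∀ e, ∑ B, w B * ind B e = x e} := by
      simp only [Set.ofPred_forall]
      exact isClosed_iInter fun e => isClosed_eq (by fun_prop) continuous_const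
    exact c1.inter (c2.inter (c3.inter c4))
  have hsub : W ⊆ Set.Icc 0 1 := by
    rintro w ⟨h0, -, h1, -⟩
    refine ⟨fun B => h0 B, fun B => ?_⟩
    show w B ≤ 1
    rw [← h1]
    exact Finset.single_le_sum (fun C _ => h0 C) (mem_univ B)
  have hcomp : IsCompact W := isCompact_Icc.of_isClosed_subset hclosed hsub
  have hne : W.Nonempty := by
    obtain ⟨w, h0, hN, h1, hw⟩ := mem_fpoly.1 hx
    exact ⟨w, h0, fun B hB => by_contra fun h => hB (hN B h), h1, hw⟩
  obtain ⟨w, hwW, hmin⟩ := hcomp.exists_isMinOn hne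
    (f := fun w : Finset (Fin n) → ℝ => ∑ B, w B * φ B) (by fun_prop)
  obtain ⟨h0, hN, h1, hw⟩ := hwW
  refine ⟨w, h0, fun B hB => by_contra fun h => hB (hN B h), h1, hw, ?_⟩
  intro B0 B1 B0' B1' hB0 hB1 hN0 hN1 hsum
  by_contra hcon
  push Not at hcon
  have p0 : 0 < w B0 := lt_of_le_of_ne (h0 B0) (Ne.symm hB0)
  have p1 : 0 < w B1 := lt_of_le_of_ne (h0 B1) (Ne.symm hB1)
  set ε : ℝ := min (w B0) (w B1) / 2 with hε
  have hεpos : 0 < ε := by rw [hε]; positivity
  have hε0 : 2 * ε ≤ w B0 := by
    rw [hε]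
    have := min_le_left (w B0) (w B1)
    linarith
  have hε1 : 2 * ε ≤ w B1 := by
    rw [hε]
    have := min_le_right (w B0) (w B1)
    linarith
  set δ : Finset (Fin n) → Finset (Fin n) → ℝ := fun A B => if B = A then 1 else 0 with hδ
  set w' : Finset (Fin n) → ℝ := fun B => w B + ε * (δ B0' B + δ B1' B - δ B0 B - δ B1 B) with hw'
  have hδs : ∀ (A : Finset (Fin n)) (g : Finset (Fin n) → ℝ), ∑ B, δ A B * g B = g A := by
    intro A g
    simp [hδ]
  have key : ∀ g : Finset (Fin n) → ℝ, ∑ B, w' B * g B =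
      ∑ B, w B * g B + ε * (g B0' + g B1' - g B0 - g B1) := by
    intro g
    have : ∀ B, w' B * g B = w B * g B + (ε * (δ B0' B * g B) + ε * (δ B1' B * g B) -
        ε * (δ B0 B * g B) - ε * (δ B1 B * g B)) := fun B => by simp only [hw']; ring
    simp only [this, Finset.sum_add_distrib, Finset.sum_sub_distrib, ← Finset.mul_sum, hδs]
    ring
  have hw'W : w' ∈ W := by
    refine ⟨?_, ?_, ?_, ?_⟩
    · intro B
      simp only [hw', hδ]
      have := h0 B
      by_cases b0 : B = B0
      · by_cases b1 : B = B1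
        · rw [if_pos b0, if_pos b1]
          have : w B = w B0 := by rw [b0]
          split_ifs <;> nlinarith
        · rw [if_pos b0, if_neg b1]
          have : w B = w B0 := by rw [b0]
          split_ifs <;> nlinarith
      · by_cases b1 : B = B1
        · rw [if_neg b0, if_pos b1]
          have : w B = w B1 := by rw [b1]
          split_ifs <;> nlinarith
        · rw [if_neg b0, if_neg b1]
          split_ifs <;> nlinarith
    · intro B hB
      simp only [hw', hδ]
      have e0 : B ≠ B0 := by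
        rintro rfl
        exact hB0 (hN B hB)
      have e1 : B ≠ B1 := by
        rintro rfl
        exact hB1 (hN B hB)
      have e2 : B ≠ B0' := by
        rintro rfl
        exact hB hN0
      have e3 : B ≠ B1' := by
        rintro rfl
        exact hB hN1
      rw [if_neg e0, if_neg e1, if_neg e2, if_neg e3, hN B hB]
      ring
    · have := key (fun _ => 1)
      simp only [mul_one] at this
      rw [this, h1]
      ring
    · intro e
      rw [key (fun B => ind B e), hw e]
      have := hsum e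
      have h2 : ind B0' e + ind B1' e - ind B0 e - ind B1 e = 0 := by linarith
      rw [h2]
      ring
  have hm := isMinOn_iff.1 hmin w' hw'W
  change ∑ B, w B * φ B ≤ ∑ B, w' B * φ B at hm
  rw [key φ] at hm
  have : ε * (φ B0' + φ B1' - φ B0 - φ B1) < 0 := by
    apply mul_neg_of_pos_of_neg hεpos
    linarith
  linarith

end Pool.Agent.N355.MS
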