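import Pool.Agent.N355.MS.Start

/-!
A finest matroid subdivision of `Δ(3,13)` with a decomposable cell.
-/

set_option autoImplicit false

namespace Pool.Agent.N355.MS

open Finset Pool.Agent.R138.Pg
open Pool.Agent.R567.MSub (vec polytope IsFace IsPolytopalComplex IsCell IsMatroidSubdivision)

/-- the average of the vertices of a family -/
theorem exists_avg (N : Finset (Fin 13) → Prop) (hne : ∃ B, N B) :
    ∃ x : Fin 13 → ℝ, ∃ w : Finset (Fin 13) → ℝ, (∀ B, 0 ≤ w B) ∧ (∀ B, w B ≠ 0 ↔ N B) ∧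
      ∑ B, w B = 1 ∧ ∀ e, ∑ B, w B * ind B e = x e := by
  classical
  set T : Finset (Finset (Fin 13)) := univ.filter N with hT
  have hTpos : (0 : ℝ) < T.card := by
    obtain ⟨B, hB⟩ := hne
    exact_mod_cast card_pos.2 ⟨B, mem_filter.2 ⟨mem_univ _, hB⟩⟩
  refine ⟨_, fun B => if N B then 1 / (T.card : ℝ) else 0, ?_, ?_, ?_, fun e => rfl⟩
  · intro B
    beta_reduce
    split_ifs <;> positivity
  · intro B
    constructor
    · intro h
      by_contra hcon
      exact h (if_neg hcon)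
    · intro h
      beta_reduce
      rw [if_pos h]
      positivity
  · rw [← sum_filter, sum_const, ← hT, nsmul_eq_mul]
    field_simp

theorem sum_le_of {w : Finset (Fin 13) → ℝ} {x : Fin 13 → ℝ} (h0 : ∀ B, 0 ≤ w B)
    (h1 : ∑ B, w B = 1) (hx : ∀ e, ∑ B, w B * ind B e = x e) (K : Finset (Fin 13)) (k : ℕ)
    (hle : ∀ B, w B ≠ 0 → (B ∩ K).card ≤ k) : ∑ e ∈ K, x e ≤ k := by
  rw [sum_weights hx]
  calc ∑ B, w B * ((B ∩ K).card : ℝ) ≤ ∑ B, w B * (k : ℝ) := by
        apply Finset.sum_le_sum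
        intro B _
        by_cases hB : w B = 0
        · simp [hB]
        · exact mul_le_mul_of_nonneg_left (by exact_mod_cast hle B hB) (h0 B)
    _ = k := by rw [← Finset.sum_mul, h1, one_mul]

theorem le_sum_of {w : Finset (Fin 13) → ℝ} {x : Fin 13 → ℝ} (h0 : ∀ B, 0 ≤ w B)
    (h1 : ∑ B, w B = 1) (hx : ∀ e, ∑ B, w B * ind B e = x e) (K : Finset (Fin 13)) (k : ℕ)
    (hle : ∀ B, w B ≠ 0 → k ≤ (B ∩ K).card) : (k : ℝ) ≤ ∑ e ∈ K, x e := by
  rw [sum_weights hx]
  calc (k : ℝ) = ∑ B, w B * (k : ℝ) := by rw [← Finset.sum_mul, h1, one_mul]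
    _ ≤ ∑ B, w B * ((B ∩ K).card : ℝ) := by
        apply Finset.sum_le_sum
        intro B _
        by_cases hB : w B = 0
        · simp [hB]
        · exact mul_le_mul_of_nonneg_left (by exact_mod_cast hle B hB) (h0 B)

theorem sum_lt_of {w : Finset (Fin 13) → ℝ} {x : Fin 13 → ℝ} (h0 : ∀ B, 0 ≤ w B)
    (h1 : ∑ B, w B = 1) (hx : ∀ e, ∑ B, w B * ind B e = x e) (K : Finset (Fin 13)) (k : ℕ)
    (hle : ∀ B, w B ≠ 0 → (B ∩ K).card ≤ k) {B : Finset (Fin 13)} (hB : w B ≠ 0)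
    (hlt : (B ∩ K).card < k) : ∑ e ∈ K, x e < k := by
  apply lt_of_le_of_ne (sum_le_of h0 h1 hx K k hle)
  intro h
  have := card_eq_of_max h0 h1 hx K k hle h B hB
  omega

/-- on the plane polytope every line has sum at most two -/
theorem PG_le {x : Fin 13 → ℝ} (hx : x ∈ polytope PG23) (k : Fin 13) : ∑ e ∈ ell k, x e ≤ 2 := by
  rw [PG23_polytope] at hx
  obtain ⟨w, w0, wN, w1, ww⟩ := mem_fpoly.1 hx
  have := sum_le_of w0 w1 ww (ell k) 2 (fun B hB => MB_le (wN B hB) k)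
  exact_mod_cast this

theorem R_ge {x : Fin 13 → ℝ} {k : Fin 13} (hx : x ∈ polytope (R k)) : 2 ≤ ∑ e ∈ ell k, x e := by
  unfold R at hx
  rw [ofBF_polytope] at hx
  obtain ⟨w, w0, wN, w1, ww⟩ := mem_fpoly.1 hx
  have := le_sum_of w0 w1 ww (ell k) 2 (fun B hB => (wN B hB).2)
  exact_mod_cast this

theorem MB_low (k : Fin 13) : ∃ B, MB B ∧ (B ∩ ell k).card < 2 := by
  refine ⟨{k + 2, k + 4, k + 5}, ⟨?_, ?_⟩, ?_⟩
  · revert k; decide
  · revert k
    decide
  · revert k; decide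

/-- a point of the plane polytope with all lines below two -/
theorem exists_p0 : ∃ p ∈ polytope PG23, ∀ k, ∑ e ∈ ell k, p e < 2 := by
  obtain ⟨B, hB, -⟩ := MB_low 0
  obtain ⟨x, w, w0, wN, w1, ww⟩ := exists_avg MB ⟨B, hB⟩
  refine ⟨x, ?_, fun k => ?_⟩
  · rw [PG23_polytope, mem_fpoly]
    exact ⟨w, w0, fun B hB => (wN B).1 hB, w1, ww⟩
  · obtain ⟨B', hB', hlt⟩ := MB_low k
    have := sum_lt_of w0 w1 ww (ell k) 2 (fun B hB => MB_le ((wN B).1 hB) k)
      ((wN B').2 hB') hlt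
    exact_mod_cast this

/-- the plane polytope is a member of every refinement of the starting subdivision -/
theorem PG_mem {C : Set (Set (Fin 13 → ℝ))} (hC : IsMatroidSubdivision U C)
    (href : Refines C (gen S0)) : polytope PG23 ∈ C := by
  have hPU : polytope PG23 ⊆ polytope U := by
    rw [← sub0.union]
    exact Set.subset_sUnion_of_mem ⟨PG23, Or.inl rfl, polytope_refl _⟩
  obtain ⟨p, hp, hpk⟩ := exists_p0
  have h := PG23_mem (𝒮 := {N | N.E = Set.univ ∧ polytope N ∈ C ∧ polytope N ⊆ polytope PG23}) ?_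
  · exact h.2.1
  refine ⟨fun N hN => hN.1, ?_, ?_⟩
  · apply Set.Subset.antisymm
    · intro x hx
      simp only [Set.mem_iUnion] at hx
      obtain ⟨N, hN, hx⟩ := hx
      exact hN.2.2 hx
    · intro x hx
      have hxP : x ∈ polytope PG23 := hx
      obtain ⟨Q, hQ, hxQ, t, ht0, ht1, hy⟩ := Pool.Agent.R567.MSub.exists_cell_near hC.isComplex
        hC.union (Pool.Agent.R567.MSub.convex_polytope U) (hPU hxP) (hPU hp)
      obtain ⟨Q0, ⟨M', hM', hF⟩, hQQ0⟩ := href Q hQ.1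
      have hQM' := hQQ0.trans hF.2.subset
      obtain ⟨N, hNE, rfl⟩ := hC.cells Q hQ
      simp only [Set.mem_iUnion]
      refine ⟨N, ⟨hNE, hQ.1, ?_⟩, hxQ⟩
      rcases hM' with rfl | ⟨k, rfl⟩
      · exact hQM'
      · exfalso
        have h1 := R_ge (hQM' hy)
        have h2 := PG_le hxP k
        have h3 := hpk k
        have h4 : ∑ e ∈ ell k, (x + t • (p - x)) e =
            (1 - t) * ∑ e ∈ ell k, x e + t * ∑ e ∈ ell k, p e := by
          rw [Finset.mul_sum, Finset.mul_sum, ← Finset.sum_add_distrib]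
          apply Finset.sum_congr rfl
          intro e _
          simp only [Pi.add_apply, Pi.smul_apply, Pi.sub_apply, smul_eq_mul]
          ring
        rw [h4] at h1
        nlinarith
  · intro N hN N' hN'
    exact (hC.isComplex.inter _ hN.2.1 _ hN'.2.1).1

/-- the generic point of the facet of the line `ell 0` -/
theorem exists_f : ∃ f : Fin 13 → ℝ, ∃ w : Finset (Fin 13) → ℝ, (∀ B, 0 ≤ w B) ∧
    (∀ B, w B ≠ 0 ↔ B.card = 3 ∧ (B ∩ ell 0).card = 2) ∧
      ∑ B, w B = 1 ∧ (∀ e, ∑ B, w B * ind B e = f e) ∧ ∑ e ∈ ell 0, f e = 2 ∧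
      ∀ k, k ≠ 0 → ∑ e ∈ ell k, f e < 2 := by
  obtain ⟨f, w, w0, wN, w1, ww⟩ := exists_avg
    (fun B => B.card = 3 ∧ (B ∩ ell 0).card = 2) ⟨{0, 1, 2}, by decide⟩
  refine ⟨f, w, w0, wN, w1, ww, ?_, ?_⟩
  · apply le_antisymm
    · have := sum_le_of w0 w1 ww (ell 0) 2 (fun B hB => ((wN B).1 hB).2.le)
      exact_mod_cast this
    · have := le_sum_of w0 w1 ww (ell 0) 2 (fun B hB => ((wN B).1 hB).2.ge)
      exact_mod_cast this
  · intro k hk
    obtain ⟨B', hB', hlt⟩ : ∃ B', (B'.card = 3 ∧ (B' ∩ ell 0).card = 2) ∧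
        (B' ∩ ell k).card < 2 := by
      have : ∀ k : Fin 13, k ≠ 0 → ∃ a ∈ ell 0, ∃ b ∈ ell 0, ∃ c : Fin 13,
          (({a, b, c} : Finset (Fin 13)).card = 3 ∧
            (({a, b, c} : Finset (Fin 13)) ∩ ell 0).card = 2) ∧
          (({a, b, c} : Finset (Fin 13)) ∩ ell k).card < 2 := by decide
      obtain ⟨a, -, b, -, c, h⟩ := this k hk
      exact ⟨_, h⟩
    have := sum_lt_of w0 w1 ww (ell k) 2
      (fun B hB => MB_le (MB_of_RB ((wN B).1 hB).1 ((wN B).1 hB).2) k) ((wN B').2 hB') hlt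
    exact_mod_cast this

/-- the cell on the other side of the facet of the line `ell 0` -/
theorem exists_N {C : Set (Set (Fin 13 → ℝ))} (hC : IsMatroidSubdivision U C)
    (href : Refines C (gen S0)) : ∃ N : Matroid (Fin 13), N.E = Set.univ ∧ IsCell C (polytope N) ∧
      (∀ B : Finset (Fin 13), N.IsBase ↑B → RB 0 B) ∧
      (∀ B : Finset (Fin 13), B.card = 3 → (B ∩ ell 0).card = 2 → N.IsBase ↑B) ∧
      ∃ B : Finset (Fin 13), N.IsBase ↑B ∧ B ⊆ ell 0 := by
  obtain ⟨f, w, w0, wN, w1, ww, hf0, hfk⟩ := exists_f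
  have hfP : f ∈ polytope PG23 := by
    rw [PG23_polytope, mem_fpoly]
    exact ⟨w, w0, fun B hB => MB_of_RB ((wN B).1 hB).1 ((wN B).1 hB).2, w1, ww⟩
  have hPC := PG_mem hC href
  have hPU : polytope PG23 ⊆ polytope U := by
    rw [← hC.union]
    exact Set.subset_sUnion_of_mem hPC
  have hg : (ind ({0, 1, 3} : Finset (Fin 13)) : Fin 13 → ℝ) ∈ polytope U := by
    unfold U
    rw [ofBF_polytope]
    exact ind_mem (by decide)
  obtain ⟨Q, hQ, hfQ, t, ht0, ht1, hy⟩ := Pool.Agent.R567.MSub.exists_cell_near hC.isComplex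
    hC.union (Pool.Agent.R567.MSub.convex_polytope U) (hPU hfP) hg
  obtain ⟨Q0, ⟨M', hM', hF⟩, hQQ0⟩ := href Q hQ.1
  have hQM' := hQQ0.trans hF.2.subset
  obtain ⟨N, hNE, rfl⟩ := hC.cells Q hQ
  have hg0 : ∑ e ∈ ell 0, ind ({0, 1, 3} : Finset (Fin 13)) e = 3 := by
    rw [sum_ind]
    have : (({0, 1, 3} : Finset (Fin 13)) ∩ ell 0).card = 3 := by decide
    rw [this]
    norm_num
  have hy0 : ∑ e ∈ ell 0, (f + t • (ind ({0, 1, 3} : Finset (Fin 13)) - f)) e = 2 + t := by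
    have : ∑ e ∈ ell 0, (f + t • (ind ({0, 1, 3} : Finset (Fin 13)) - f)) e =
        (1 - t) * ∑ e ∈ ell 0, f e + t * ∑ e ∈ ell 0, ind ({0, 1, 3} : Finset (Fin 13)) e := by
      rw [Finset.mul_sum, Finset.mul_sum, ← Finset.sum_add_distrib]
      apply Finset.sum_congr rfl
      intro e _
      simp only [Pi.add_apply, Pi.smul_apply, Pi.sub_apply, smul_eq_mul]
      ring
    rw [this, hf0, hg0]
    ring
  have hM0 : M' = R 0 := by
    rcases hM' with rfl | ⟨k, rfl⟩
    · exfalso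
      have := PG_le (hQM' hy) 0
      rw [hy0] at this
      linarith
    · by_cases hk : k = 0
      · rw [hk]
      · exfalso
        have h1 := R_ge (hQM' hfQ)
        have h2 := hfk k hk
        linarith
  subst hM0
  have hsub : ∀ B : Finset (Fin 13), N.IsBase ↑B → RB 0 B := fun B hB =>
    (ofBF_isBase (bf_RB 0) B).1 (Pool.Agent.R567.MSub.isBase_of_subset hQM' hB)
  refine ⟨N, hNE, hQ, hsub, ?_, ?_⟩
  · intro B hB hB2
    have hface := (hC.isComplex.inter _ hPC _ hQ.1).1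
    have hface' := hface
    rw [PG23_polytope] at hface'
    have hfF : f ∈ fpoly MB ∩ polytope N := by
      rw [← PG23_polytope]
      exact ⟨hfP, hfQ⟩
    have hm := ind_mem_of_weight hface' hfF w0
      (fun B hB => MB_of_RB ((wN B).1 hB).1 ((wN B).1 hB).2) w1 ww
      ((wN B).2 ⟨hB, hB2⟩)
    have hm2 := hm.2
    rw [polytope_eq] at hm2
    exact ind_mem_iff.1 hm2
  · by_contra hcon
    push Not at hcon
    rw [polytope_eq] at hy
    obtain ⟨w', w0', wN', w1', ww'⟩ := mem_fpoly.1 hy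
    have := sum_le_of w0' w1' ww' (ell 0) 2 (fun B hB => by
      by_contra h3
      apply hcon B (wN' B hB)
      have hc := (hsub B (wN' B hB)).1
      have : B ∩ ell 0 = B := eq_of_subset_of_card_le inter_subset_left (by omega)
      rw [← this]
      exact inter_subset_right)
    rw [hy0] at this
    norm_num at this
    linarith

end Pool.Agent.N355.MS
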