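import Pool.Agent.N355.MS.Clone
import Pool.Agent.Results.MP_da28a5_co.Indecomposable

/-!
The projective plane over the field with three elements, with points `0, ..., 12` and lines
`{k, k + 1, k + 3, k + 9}`.
-/

set_option autoImplicit false

namespace Pool.Agent.N355.MS

open Finset Pool.Agent.R138.Pg
open Pool.Agent.R567.MSub (vec polytope IsFace IsPolytopalComplex IsCell IsMatroidSubdivision)

/-- the lines of the plane -/
def ell (k : Fin 13) : Finset (Fin 13) := {k, k + 1, k + 3, k + 9}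

/-- homogeneous coordinates of the points -/
def vv : Fin 13 → Fin 3 → ZMod 3 :=
  ![![1, 0, 0], ![0, 1, 0], ![0, 0, 1], ![2, 1, 0], ![0, 2, 1], ![2, 1, 2], ![1, 1, 1], ![2, 2, 1],
    ![2, 0, 2], ![1, 1, 0], ![0, 1, 1], ![2, 1, 1], ![2, 0, 1]]

/-- equations of the lines -/
def hh : Fin 13 → Fin 3 → ZMod 3 :=
  ![![0, 0, 1], ![1, 0, 0], ![1, 1, 0], ![1, 1, 1], ![0, 1, 1], ![1, 0, 2], ![1, 2, 0], ![1, 1, 2],
    ![1, 2, 2], ![1, 2, 1], ![0, 1, 2], ![1, 0, 1], ![0, 1, 0]]

theorem ell_card (k : Fin 13) : (ell k).card = 4 := by revert k; decide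

theorem two_pts (a b : Fin 13) : ∃ k, a ∈ ell k ∧ b ∈ ell k := by revert a b; decide

theorem ell_inter (k k' : Fin 13) (h : k ≠ k') : (ell k ∩ ell k').card = 1 := by
  revert k k'; decide

theorem inc (k i : Fin 13) :
    (hh k 0 * vv i 0 + hh k 1 * vv i 1 + hh k 2 * vv i 2 = 0) ↔ i ∈ ell k := by
  revert k i; decide

theorem vv_full (x : Fin 3 → ZMod 3) (hx : x ≠ 0) :
    ∃ P : Fin 13, ∃ l : ZMod 3, l ≠ 0 ∧ vv P = l • x := by
  revert x; decide

theorem vv_pair (a b : Fin 13) (h : a ≠ b) (c d : ZMod 3) (hcd : c • vv a + d • vv b = 0) :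
    c = 0 ∧ d = 0 := by
  revert a b c d; decide

theorem hh_ne (k : Fin 13) : ∃ i, i ∉ ell k := by revert k; decide

/-- the form of a line -/
def form (k : Fin 13) : (Fin 3 → ZMod 3) →ₗ[ZMod 3] ZMod 3 :=
  hh k 0 • LinearMap.proj 0 + hh k 1 • LinearMap.proj 1 + hh k 2 • LinearMap.proj 2

theorem form_eq_zero (k i : Fin 13) : form k (vv i) = 0 ↔ i ∈ ell k := by
  rw [← inc]
  simp [form]

/-- two distinct points on two lines: the lines agree -/
theorem line_unique {k k' a b : Fin 13} (hab : a ≠ b) (ha : a ∈ ell k) (hb : b ∈ ell k)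
    (ha' : a ∈ ell k') (hb' : b ∈ ell k') : k = k' := by
  by_contra hne
  have h1 := ell_inter k k' hne
  have h2 : ({a, b} : Finset (Fin 13)) ⊆ ell k ∩ ell k' := by
    intro t ht
    simp only [mem_insert, mem_singleton] at ht
    rcases ht with rfl | rfl
    · exact mem_inter.2 ⟨ha, ha'⟩
    · exact mem_inter.2 ⟨hb, hb'⟩
  have h3 := card_le_card h2
  rw [Finset.card_pair hab] at h3
  omega

/-- the bases of the plane -/
def MB (B : Finset (Fin 13)) : Prop := B.card = 3 ∧ ∀ k, ¬ B ⊆ ell k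

theorem LB_iff (B : Finset (Fin 13)) : LB (ZMod 3) vv 3 B ↔ MB B := by
  have : Fact (Nat.Prime 3) := ⟨by norm_num⟩
  constructor
  · intro h
    refine ⟨h.1, fun k hk => ?_⟩
    have hspan := (LB_iff_span (F := ZMod 3) (v := vv) (r := 3) (by simp) (le_of_eq h.1)).1 h
    have hle : Submodule.span (ZMod 3) (vv '' (B : Set (Fin 13))) ≤ LinearMap.ker (form k) := by
      rw [Submodule.span_le]
      rintro _ ⟨i, hi, rfl⟩
      rw [SetLike.mem_coe, LinearMap.mem_ker, form_eq_zero]
      exact hk (by exact_mod_cast hi)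
    rw [hspan, top_le_iff] at hle
    obtain ⟨i, hi⟩ := hh_ne k
    apply hi
    rw [← form_eq_zero]
    have : vv i ∈ LinearMap.ker (form k) := by rw [hle]; trivial
    exact this
  · rintro ⟨h1, h2⟩
    refine ⟨h1, ?_⟩
    rw [linearIndepOn_finset_iff]
    intro g hg i hi
    obtain ⟨a, b, hab, hBi⟩ : ∃ a b, a ≠ b ∧ B.erase i = {a, b} := by
      rw [← card_eq_two]
      have := card_erase_add_one hi
      omega
    obtain ⟨k, hak, hbk⟩ := two_pts a b
    have hik : i ∉ ell k := by
      intro hik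
      apply h2 k
      rw [← insert_erase hi, hBi]
      intro t ht
      simp only [mem_insert, mem_singleton] at ht
      rcases ht with rfl | rfl | rfl <;> assumption
    have h3 := congrArg (form k) hg
    rw [map_sum, map_zero, ← Finset.add_sum_erase _ _ hi, hBi, Finset.sum_pair hab] at h3
    simp only [map_smul, smul_eq_mul] at h3
    rw [(form_eq_zero k a).2 hak, (form_eq_zero k b).2 hbk] at h3
    simp only [mul_zero, add_zero] at h3
    rcases mul_eq_zero.1 h3 with h | h
    · exact h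
    · exact absurd ((form_eq_zero k i).1 h) hik

/-- the matroid of the projective plane over the field with three elements -/
noncomputable def PG23 : Matroid (Fin 13) :=
  haveI : Fact (Nat.Prime 3) := ⟨by norm_num⟩
  Pool.Agent.Helper236.linMatroid (ZMod 3) vv Set.univ (Set.toFinite _)

theorem PG23_E : PG23.E = Set.univ := rfl

theorem PG23_indep (I : Set (Fin 13)) : PG23.Indep I ↔
    haveI : Fact (Nat.Prime 3) := ⟨by norm_num⟩
    LinearIndepOn (ZMod 3) vv I := by
  have : Fact (Nat.Prime 3) := ⟨by norm_num⟩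
  unfold PG23
  rw [Pool.Agent.Helper236.linMatroid_indep]
  simp

theorem PG23_isBase (B : Finset (Fin 13)) : PG23.IsBase ↑B ↔ MB B := by
  have : Fact (Nat.Prime 3) := ⟨by norm_num⟩
  rw [Pool.Agent.Results.MP_da28a5_co.Indecomposable.isBase_iff_LB (F := ZMod 3)
    (V := Fin 3 → ZMod 3) (v := vv) (r := 3) (by simp) vv_full PG23_indep B]
  exact LB_iff B

theorem PG23_polytope : polytope PG23 = fpoly MB := by
  rw [polytope_eq]
  congr 1
  funext B
  exact propext (PG23_isBase B)

/-- the library's indecomposability theorem, for families of cells -/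
theorem PG23_mem {𝒮 : Set (Matroid (Fin 13))}
    (h : Pool.Agent.Results.MP_da28a5_co.Indecomposable.IsMatroidSubdivision PG23 𝒮) :
    PG23 ∈ 𝒮 := by
  have : Fact (Nat.Prime 3) := ⟨by norm_num⟩
  refine Pool.Agent.Results.MP_da28a5_co.Indecomposable.mem_subdivision (F := ZMod 3)
    (V := Fin 3 → ZMod 3) (v := vv) (r := 3) (by simp) le_rfl vv_full ?_ PG23_indep h
  intro a b hab
  rw [LinearIndepOn.pair_iff _ hab]
  exact vv_pair a b hab

end Pool.Agent.N355.MS
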