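import Pool.Agent.N355.MS.Plane

/-!
The subdivision of the hypersimplex `Δ(3,13)` given by the projective plane.
-/

set_option autoImplicit false

namespace Pool.Agent.N355.MS

open Finset Pool.Agent.R138.Pg
open Pool.Agent.R567.MSub (vec polytope IsFace IsPolytopalComplex IsCell IsMatroidSubdivision)

theorem card_swap_inter {n : ℕ} {A : Finset (Fin n)} {e f : Fin n} (he : e ∈ A) (hf : f ∉ A)
    (K : Finset (Fin n)) : (insert f (A.erase e) ∩ K).card + (if e ∈ K then 1 else 0) =
      (A ∩ K).card + (if f ∈ K then 1 else 0) := by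
  have h1 : (A ∩ K).card = (A.erase e ∩ K).card + (if e ∈ K then 1 else 0) := by
    conv_lhs => rw [← insert_erase he]
    by_cases heK : e ∈ K
    · rw [insert_inter_of_mem heK, card_insert_of_notMem (by simp), if_pos heK]
    · rw [insert_inter_of_notMem heK, if_neg heK, add_zero]
  have h2 : (insert f (A.erase e) ∩ K).card = (A.erase e ∩ K).card + (if f ∈ K then 1 else 0) := by
    by_cases hfK : f ∈ K
    · rw [insert_inter_of_mem hfK, card_insert_of_notMem (by simp [hf]), if_pos hfK]
    · rw [insert_inter_of_notMem hfK, if_neg hfK, add_zero]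
  rw [h1, h2]
  omega

theorem card_swap {n : ℕ} {A : Finset (Fin n)} {e f : Fin n} (he : e ∈ A) (hf : f ∉ A) :
    (insert f (A.erase e)).card = A.card := by
  have := card_swap_inter he hf univ
  simpa using this

theorem ind_swap {n : ℕ} {A B : Finset (Fin n)} {a e : Fin n} (ha : a ∈ A) (haB : a ∉ B)
    (he : e ∈ B) (heA : e ∉ A) (t : Fin n) :
    ind A t + ind B t = ind (insert e (A.erase a)) t + ind (insert a (B.erase e)) t := by
  have hae : a ≠ e := by rintro rfl; exact haB he
  unfold ind
  by_cases h1 : t = a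
  · subst h1
    simp [ha, haB, hae]
  · by_cases h2 : t = e
    · subst h2
      simp [he, heA, h1]
    · simp [h1, h2]

/-- the family of 3-element sets -/
theorem bf_unif : BF 3 (fun B : Finset (Fin 13) => B.card = 3) := by
  refine ⟨fun B hB => hB, ⟨{0, 1, 2}, by decide⟩, ?_⟩
  intro A B hA hB e he heB
  obtain ⟨f, hf, hfA⟩ : ∃ f ∈ B, f ∉ A := by
    by_contra hcon
    push Not at hcon
    have : B = A := eq_of_subset_of_card_le hcon (by omega)
    exact heB (this ▸ he)
  exact ⟨f, hf, hfA, by rw [card_swap he hfA]; exact hA⟩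

/-- the uniform matroid `U_{3,13}` -/
noncomputable def U : Matroid (Fin 13) := ofBF bf_unif

/-- 3-element sets with at least two elements on a line -/
def RB (k : Fin 13) (B : Finset (Fin 13)) : Prop := B.card = 3 ∧ 2 ≤ (B ∩ ell k).card

theorem bf_RB (k : Fin 13) : BF 3 (RB k) := by
  refine ⟨fun B hB => hB.1, ⟨{k, k + 1, k + 2}, ?_, ?_⟩, ?_⟩
  · revert k; decide
  · revert k; decide
  rintro A B ⟨hA, hA2⟩ ⟨hB, hB2⟩ e he heB
  by_cases h : 2 ≤ (A.erase e ∩ ell k).card
  · obtain ⟨f, hf, hfA⟩ : ∃ f ∈ B, f ∉ A := by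
      by_contra hcon
      push Not at hcon
      have : B = A := eq_of_subset_of_card_le hcon (by omega)
      exact heB (this ▸ he)
    refine ⟨f, hf, hfA, by rw [card_swap he hfA]; exact hA, h.trans ?_⟩
    apply card_le_card
    exact inter_subset_inter_right (subset_insert _ _)
  · obtain ⟨f, hf, hf2⟩ := exists_mem_notMem_of_card_lt_card
      (s := A.erase e ∩ ell k) (t := B ∩ ell k) (by omega)
    rw [mem_inter] at hf
    have hfe : f ≠ e := by rintro rfl; exact heB hf.1
    have hfA : f ∉ A := fun h' => hf2 (mem_inter.2 ⟨mem_erase.2 ⟨hfe, h'⟩, hf.2⟩)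
    refine ⟨f, hf.1, hfA, by rw [card_swap he hfA]; exact hA, ?_⟩
    have := card_swap_inter he hfA (ell k)
    rw [if_pos hf.2] at this
    split_ifs at this <;> omega

/-- the matroid with bases the 3-element sets with at least two elements on the line -/
noncomputable def R (k : Fin 13) : Matroid (Fin 13) := ofBF (bf_RB k)

theorem MB_le {B : Finset (Fin 13)} (h : MB B) (k : Fin 13) : (B ∩ ell k).card ≤ 2 := by
  by_contra hcon
  apply h.2 k
  have h1 : B ∩ ell k = B := eq_of_subset_of_card_le inter_subset_left (by rw [h.1]; omega)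
  rw [← h1]
  exact inter_subset_right

theorem MB_of_RB {B : Finset (Fin 13)} {k : Fin 13} (h : B.card = 3) (h2 : (B ∩ ell k).card = 2) :
    MB B := by
  refine ⟨h, fun k' hk' => ?_⟩
  by_cases hkk : k' = k
  · subst hkk
    rw [inter_eq_left.2 hk'] at h2
    omega
  · have h3 := ell_inter k k' (Ne.symm hkk)
    have h4 : B ∩ ell k ⊆ ell k ∩ ell k' := fun t ht =>
      mem_inter.2 ⟨(mem_inter.1 ht).2, hk' (mem_inter.1 ht).1⟩
    have := card_le_card h4
    omega

/-- a collinear triple and a triple with at most one point on the line can be moved to bases -/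
theorem improve {k : Fin 13} {B0 B1 : Finset (Fin 13)} (h0 : B0.card = 3) (h0k : B0 ⊆ ell k)
    (h1 : B1.card = 3) (h1k : (B1 ∩ ell k).card ≤ 1) :
    ∃ B0' B1', MB B0' ∧ MB B1' ∧ ∀ t, ind B0 t + ind B1 t = ind B0' t + ind B1' t := by
  have hc := card_inter_compl B1 (ell k)
  have h2 : 1 < (B1 ∩ (ell k)ᶜ).card := by omega
  obtain ⟨e, he, f, hf, hef⟩ := one_lt_card.1 h2
  rw [mem_inter, mem_compl] at he hf
  obtain ⟨d, hd⟩ : ∃ d, (B1.erase e).erase f = {d} := by
    rw [← card_eq_one]
    have c1 := card_erase_add_one he.1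
    have c2 := card_erase_add_one (s := B1.erase e) (a := f) (mem_erase.2 ⟨hef.symm, hf.1⟩)
    omega
  have hdm : d ∈ (B1.erase e).erase f := by rw [hd]; exact mem_singleton_self d
  rw [mem_erase, mem_erase] at hdm
  obtain ⟨hdf, hde, hdB⟩ := hdm
  have hBe : B1.erase e = {f, d} := by
    rw [← insert_erase (mem_erase.2 ⟨hef.symm, hf.1⟩ : f ∈ B1.erase e), hd]
  obtain ⟨k', hdk', hfk'⟩ := two_pts d f
  have hkk : k' ≠ k := by rintro rfl; exact hf.2 hfk'
  obtain ⟨a, ha, hak'⟩ : ∃ a ∈ B0, a ∉ ell k' := by
    by_contra hcon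
    push Not at hcon
    have h3 : B0 ⊆ ell k ∩ ell k' := fun t ht => mem_inter.2 ⟨h0k ht, hcon t ht⟩
    have := card_le_card h3
    rw [ell_inter k k' hkk.symm] at this
    omega
  have hae : a ≠ e := by rintro rfl; exact he.2 (h0k ha)
  have haf : a ≠ f := by rintro rfl; exact hak' hfk'
  have had : a ≠ d := by rintro rfl; exact hak' hdk'
  have haB1 : a ∉ B1 := by
    intro h
    have : a ∈ B1.erase e := mem_erase.2 ⟨hae, h⟩
    rw [hBe] at this
    simp [haf, had] at this
  have heB0 : e ∉ B0 := fun h => he.2 (h0k h)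
  refine ⟨insert e (B0.erase a), insert a (B1.erase e), ?_, ?_, ind_swap ha haB1 he.1 heB0⟩
  · refine ⟨by rw [card_swap ha heB0]; exact h0, fun k2 hk2 => ?_⟩
    have h4 : 1 < (B0.erase a).card := by
      have := card_erase_add_one ha
      omega
    obtain ⟨b, hb, c, hc, hbc⟩ := one_lt_card.1 h4
    have := line_unique hbc (h0k (mem_of_mem_erase hb)) (h0k (mem_of_mem_erase hc))
      (hk2 (mem_insert_of_mem hb)) (hk2 (mem_insert_of_mem hc))
    subst this
    exact he.2 (hk2 (mem_insert_self _ _))
  · refine ⟨by rw [card_swap he.1 haB1]; exact h1, fun k2 hk2 => ?_⟩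
    have hf2 : f ∈ ell k2 := hk2 (mem_insert_of_mem (by rw [hBe]; simp))
    have hd2 : d ∈ ell k2 := hk2 (mem_insert_of_mem (by rw [hBe]; simp))
    have := line_unique hdf hdk' hfk' hd2 hf2
    subst this
    exact hak' (hk2 (mem_insert_self _ _))

/-- the cells of the starting subdivision -/
def S0 : Set (Matroid (Fin 13)) := insert PG23 (Set.range R)

theorem cover0 : polytope U ⊆ ⋃ N ∈ S0, polytope N := by
  classical
  intro x hx
  unfold U at hx
  rw [ofBF_polytope] at hx
  obtain ⟨w, w0, wN, w1, ww, wopt⟩ := exists_opt hx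
    (fun B => if MB B then (0 : ℝ) else 1)
  simp only [Set.mem_iUnion]
  by_cases hall : ∀ B, w B ≠ 0 → MB B
  · refine ⟨PG23, Or.inl rfl, ?_⟩
    rw [PG23_polytope, mem_fpoly]
    exact ⟨w, w0, hall, w1, ww⟩
  · push Not at hall
    obtain ⟨B0, hB0, hB0M⟩ := hall
    have hc := wN B0 hB0
    obtain ⟨k, hk⟩ : ∃ k, B0 ⊆ ell k := by
      by_contra hcon
      push Not at hcon
      exact hB0M ⟨hc, hcon⟩
    refine ⟨R k, Or.inr ⟨k, rfl⟩, ?_⟩
    unfold R
    rw [ofBF_polytope, mem_fpoly]
    refine ⟨w, w0, fun B hB => ⟨wN B hB, ?_⟩, w1, ww⟩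
    by_contra hcon
    obtain ⟨B0', B1', h1, h2, h3⟩ := improve hc hk (wN B hB) (by omega)
    have := wopt B0 B B0' B1' hB0 hB h1.1 h2.1 h3
    rw [if_neg hB0M, if_pos h1, if_pos h2] at this
    split_ifs at this <;> norm_num at this

theorem sub0 : IsMatroidSubdivision U (gen S0) := by
  apply gen_isMatroidSubdivision
  · rintro N (rfl | ⟨k, rfl⟩)
    · exact PG23_E
    · exact ofBF_E _
  · rintro N (rfl | ⟨k, rfl⟩) B hB
    · obtain ⟨C, rfl⟩ := (Set.toFinite B).exists_finset_coe
      exact (ofBF_isBase bf_unif C).2 ((PG23_isBase C).1 hB).1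
    · obtain ⟨C, rfl⟩ := (Set.toFinite B).exists_finset_coe
      exact (ofBF_isBase bf_unif C).2 ((ofBF_isBase (bf_RB k) C).1 hB).1
  · exact cover0
  · rintro N (rfl | ⟨k, rfl⟩) N' (rfl | ⟨k', rfl⟩)
    · rw [Set.inter_self]
      exact polytope_refl _
    · unfold R
      rw [PG23_polytope, ofBF_polytope]
      exact isFace_inter (ell k') 2 (fun B hB => MB_le hB k') (fun B hB => hB.2)
        (fun B hB h => ⟨hB.1, h.ge⟩)
    · unfold R
      rw [PG23_polytope, ofBF_polytope]
      apply isFace_inter (ell k)ᶜ 1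
      · intro B hB
        have := card_inter_compl B (ell k)
        have := hB.1
        have := hB.2
        omega
      · intro B hB
        have := card_inter_compl B (ell k)
        have := hB.1
        have := MB_le hB k
        omega
      · intro B hB h
        have := card_inter_compl B (ell k)
        have := hB.1
        exact MB_of_RB hB.1 (k := k) (by omega)
    · by_cases hkk : k = k'
      · subst hkk
        rw [Set.inter_self]
        exact polytope_refl _
      · unfold R
        rw [ofBF_polytope, ofBF_polytope]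
        apply isFace_inter (ell k') 2
        · intro B hB
          have h1 := card_inter_compl B (ell k)
          have h2 := hB.1
          have h3 := hB.2
          have h4 : B ∩ ell k' ⊆ (B ∩ (ell k)ᶜ) ∪ (ell k ∩ ell k') := by
            intro t ht
            rw [mem_inter] at ht
            by_cases htk : t ∈ ell k
            · exact mem_union_right _ (mem_inter.2 ⟨htk, ht.2⟩)
            · exact mem_union_left _ (mem_inter.2 ⟨ht.1, mem_compl.2 htk⟩)
          have h5 := (card_le_card h4).trans (card_union_le _ _)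
          rw [ell_inter k k' hkk] at h5
          omega
        · intro B hB
          exact hB.2
        · intro B hB h
          exact ⟨hB.1, h.ge⟩

end Pool.Agent.N355.MS
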